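import Mathlib
import Pool.Agent.H10.FanDefs
import Pool.Agent.H10.Fan

set_option autoImplicit false

namespace Pool.Agent.Results.MP_cac92d_co.FourFan

open MeasureTheory Pool.Agent.H10.Fan in
/-- The vector `(1/8, 3/8, 1/8, 3/8)` is not in `A(4,2)`, even when degenerate fans made of
parallel lines are allowed. -/
theorem result : ∃ μ₁ μ₂ : Measure E, IsProbabilityMeasure μ₁ ∧ IsProbabilityMeasure μ₂ ∧
    μ₁ ≪ volume ∧ μ₂ ≪ volume ∧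
    (∀ (x : E) (θ : Fin 4 → ℝ), θ 0 < θ 1 → θ 1 < θ 2 → θ 2 < θ 3 → θ 3 < θ 0 + 2 * Real.pi →
      ¬ (FanPart μ₁ ![1 / 8, 3 / 8, 1 / 8, 3 / 8] x θ ∧
        FanPart μ₂ ![1 / 8, 3 / 8, 1 / 8, 3 / 8] x θ)) ∧
    ∀ (u : E) (c : Fin 4 → ℝ) (j : Fin 4), c 0 < c 1 → c 1 < c 2 → c 2 < c 3 →
      ¬ (ParPart μ₁ ![1 / 8, 3 / 8, 1 / 8, 3 / 8] u c j ∧
        ParPart μ₂ ![1 / 8, 3 / 8, 1 / 8, 3 / 8] u c j) :=
  ⟨μ 0, μ 1, μ_prob 0, μ_prob 1, μ_ac 0, μ_ac 1,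
    fun x θ h1 h2 h3 h4 h => no_point x θ h1 h2 h3 h4 fun l hl => by
      interval_cases l
      exacts [h.1, h.2],
    fun u c j h1 h2 h3 h => no_par u c h1 h2 h3 j fun l hl => by
      interval_cases l
      exacts [h.1, h.2]⟩

end Pool.Agent.Results.MP_cac92d_co.FourFan
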